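import Mathlib
import Pool.Agent.W262.RK.F4c
import Pool.Agent.W358.RK2.SVR
import Pool.Agent.W358.RK2.GR

/-!
# The average of `2 ^ rank` is bounded in families with full 2-torsion

Let `F k (t) = a k * D(t) * ∏_{i < n} (α k i * t + β k i)` for `k = 0, 1, 2`, where `D` is a
product of `m` linear forms, all the `3 n + m` linear forms are pairwise non-proportional and
`F 0 - F 1 = F 2`. Then the average over `|t| ≤ X` of `2 ^ rank` of the elliptic curves
`y² = x (x - F 0 (t)) (x - F 1 (t))` over `ℚ` is bounded.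
-/

namespace Pool.Agent.Results.MP_157626_nt.BoundedAverage

open Finset

/-- the curve `y² = x (x - A) (x - B)` over `ℚ` -/
def E (A B : ℤ) : WeierstrassCurve ℚ := ⟨0, -((A : ℚ) + B), 0, (A : ℚ) * B, 0⟩

/-- `F k (t) = a k * (∏ i, (γ i * t + δ i)) * ∏ i, (α k i * t + β k i)` -/
def F {n m : ℕ} (a : Fin 3 → ℤ) (γ δ : Fin m → ℤ) (α β : Fin 3 → Fin n → ℤ) (k : Fin 3)
    (t : ℤ) : ℤ :=
  a k * (∏ i, (γ i * t + δ i)) * ∏ i, (α k i * t + β k i)

open Pool.Agent.W262.RK in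
theorem half (n m : ℕ) (a : Fin 3 → ℤ) (γ δ : Fin m → ℤ) (α β : Fin 3 → Fin n → ℤ)
    (ha : ∀ k, a k ≠ 0) (hα : ∀ k i, α k i ≠ 0) (hγ : ∀ i, γ i ≠ 0)
    (h1 : ∀ k i l j, (k, i) ≠ (l, j) → α k i * β l j ≠ α l j * β k i)
    (h2 : ∀ i j, i ≠ j → γ i * δ j ≠ γ j * δ i)
    (h3 : ∀ k i j, α k i * δ j ≠ γ j * β k i)
    (hF : ∀ t : ℤ, F a γ δ α β 0 t - F a γ δ α β 1 t = F a γ δ α β 2 t) :
    ∃ C : ℝ, 0 ≤ C ∧ ∀ X : ℕ, ∑ t ∈ Icc 1 X, (2 : ℝ) ^ Module.finrank ℤ
        (E (F a γ δ α β 0 (t : ℤ)) (F a γ δ α β 1 (t : ℤ))).toAffine.Point ≤ C * X := by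
  classical
  set cls : (Fin 3 × Fin n) ⊕ Fin m → Fin 4 := Sum.elim (fun j => j.1.castSucc) (fun _ => 3)
    with hcls
  set A : (Fin 3 × Fin n) ⊕ Fin m → ℤ := Sum.elim (fun j => α j.1 j.2) γ with hA
  set B : (Fin 3 × Fin n) ⊕ Fin m → ℤ := Sum.elim (fun j => β j.1 j.2) δ with hB
  have hcs : ∀ (k : Fin 3), k.castSucc ≠ (3 : Fin 4) := by decide
  have hfs : ∀ k : Fin 3, fs cls k =
      (univ.image (fun i : Fin n => (Sum.inl (k, i) : (Fin 3 × Fin n) ⊕ Fin m))) ∪
      (univ.image (fun i : Fin m => (Sum.inr i : (Fin 3 × Fin n) ⊕ Fin m))) := by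
    intro k
    ext j
    unfold fs
    rw [mem_filter, mem_union, mem_image, mem_image]
    rcases j with ⟨l, i⟩ | i
    · simp only [hcls, Sum.elim_inl, mem_univ, true_and, hcs, or_false, reduceCtorEq,
        exists_false, Sum.inl.injEq, Prod.mk.injEq]
      constructor
      · intro h
        exact ⟨i, (Fin.castSucc_injective _ h).symm, rfl⟩
      · rintro ⟨i', h, _⟩
        rw [h]
    · simp only [hcls, Sum.elim_inr, mem_univ, true_and, or_true, reduceCtorEq, exists_false,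
        Sum.inr.injEq, exists_eq, false_or]
  have hFF : ∀ (t : ℤ) (k : Fin 3), F4 cls a A B t k = F a γ δ α β k t := by
    intro t k
    unfold F4 F
    rw [hfs, prod_union, prod_image (fun i _ j _ hij => by simpa using hij),
      prod_image (fun i _ j _ hij => by simpa using hij)]
    · simp only [ff, hA, hB, Sum.elim_inl, Sum.elim_inr]
      ring
    · rw [disjoint_left]
      intro j hj hj'
      rw [mem_image] at hj hj'
      obtain ⟨_, _, rfl⟩ := hj
      obtain ⟨_, _, h⟩ := hj'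
      exact absurd h (by simp)
  have hcard : ∀ k : Fin 4, k ≠ 3 → (univ.filter (fun j => cls j = k)).card = n := by
    intro k hk
    have hk' : ∃ k' : Fin 3, k = k'.castSucc := by
      revert k
      decide
    obtain ⟨k', rfl⟩ := hk'
    have h : univ.filter (fun j => cls j = k'.castSucc) =
        univ.image (fun i : Fin n => (Sum.inl (k', i) : (Fin 3 × Fin n) ⊕ Fin m)) := by
      ext j
      rw [mem_filter, mem_image]
      rcases j with ⟨l, i⟩ | i
      · simp only [hcls, Sum.elim_inl, mem_univ, true_and, Sum.inl.injEq, Prod.mk.injEq]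
        constructor
        · intro h
          exact ⟨i, (Fin.castSucc_injective _ h).symm, rfl⟩
        · rintro ⟨i', h, _⟩
          rw [h]
      · simp only [hcls, Sum.elim_inr, mem_univ, true_and, reduceCtorEq, exists_false, iff_false]
        exact fun h => hcs k' h.symm
    rw [h, card_image_of_injective _ (fun i j hij => by simpa using hij)]
    simp
  obtain ⟨C, hC0, hC⟩ := avg4_full Pool.Agent.W358.RK2.svr Pool.Agent.W358.RK2.gr cls n hcard a A B
    ha
    (by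
      rintro (j | j)
      · exact hα _ _
      · exact hγ _)
    (by
      rintro (⟨k, i⟩ | i) (⟨l, j⟩ | j) hne
      · exact sub_ne_zero.2 (h1 k i l j (by simpa using hne))
      · exact sub_ne_zero.2 (h3 k i j)
      · exact sub_ne_zero.2 (fun h => h3 l j i h.symm)
      · exact sub_ne_zero.2 (h2 i j (by simpa using hne)))
    (fun t => by rw [hFF, hFF, hFF]; exact hF t)
  refine ⟨C, hC0, fun X => ?_⟩
  have h := hC X
  have e : ∀ t : ℕ, (2 : ℝ) ^ Module.finrank ℤ
        (E (F a γ δ α β 0 (t : ℤ)) (F a γ δ α β 1 (t : ℤ))).toAffine.Point =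
      (2 : ℝ) ^ Module.finrank ℤ (EAB (F4 cls a A B (t : ℤ) 0)
        (F4 cls a A B (t : ℤ) 1)).toAffine.Point := by
    intro t
    rw [hFF, hFF]
    rfl
  rw [sum_congr rfl (fun t _ => e t)]
  exact h

/-- The average of `2 ^ rank` is bounded. -/
theorem result (n m : ℕ) (a : Fin 3 → ℤ) (γ δ : Fin m → ℤ) (α β : Fin 3 → Fin n → ℤ)
    (ha : ∀ k, a k ≠ 0) (hα : ∀ k i, α k i ≠ 0) (hγ : ∀ i, γ i ≠ 0)
    (h1 : ∀ k i l j, (k, i) ≠ (l, j) → α k i * β l j ≠ α l j * β k i)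
    (h2 : ∀ i j, i ≠ j → γ i * δ j ≠ γ j * δ i)
    (h3 : ∀ k i j, α k i * δ j ≠ γ j * β k i)
    (hF : ∀ t : ℤ, F a γ δ α β 0 t - F a γ δ α β 1 t = F a γ δ α β 2 t) :
    ∃ C : ℝ, ∀ X : ℕ, 1 ≤ X → ∑ t ∈ Icc (-(X : ℤ)) X, (2 : ℝ) ^ Module.finrank ℤ
        (E (F a γ δ α β 0 t) (F a γ δ α β 1 t)).toAffine.Point ≤ C * X := by
  classical
  obtain ⟨C1, hC10, hC1⟩ := half n m a γ δ α β ha hα hγ h1 h2 h3 hF
  have hneg : ∀ (k : Fin 3) (t : ℤ), F a (fun i => -γ i) δ (fun k i => -α k i) β k t =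
      F a γ δ α β k (-t) := by
    intro k t
    unfold F
    congr 1
    · congr 1
      refine prod_congr rfl fun i _ => ?_
      ring
    · refine prod_congr rfl fun i _ => ?_
      ring
  obtain ⟨C2, hC20, hC2⟩ := half n m a (fun i => -γ i) δ (fun k i => -α k i) β ha
    (fun k i => neg_ne_zero.2 (hα k i)) (fun i => neg_ne_zero.2 (hγ i))
    (fun k i l j h => by
      intro h3
      apply h1 k i l j h
      linarith)
    (fun i j h => by
      intro h3
      apply h2 i j h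
      linarith)
    (fun k i j => by
      intro h4
      apply h3 k i j
      linarith) (fun t => by rw [hneg, hneg, hneg]; exact hF (-t))
  set P : ℤ → ℝ := fun t => (2 : ℝ) ^ Module.finrank ℤ
        (E (F a γ δ α β 0 t) (F a γ δ α β 1 t)).toAffine.Point with hP
  have hP0 : ∀ t, 0 ≤ P t := fun t => by positivity
  refine ⟨C1 + C2 + P 0, fun X hX => ?_⟩
  have hXr : (1 : ℝ) ≤ X := by exact_mod_cast hX
  have e1 : ∑ t ∈ Icc 1 X, P (t : ℤ) ≤ C1 * X := hC1 X
  have e2 : ∑ t ∈ Icc 1 X, P (-(t : ℤ)) ≤ C2 * X := by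
    have h := hC2 X
    have e : ∀ t : ℕ, (2 : ℝ) ^ Module.finrank ℤ
        (E (F a (fun i => -γ i) δ (fun k i => -α k i) β 0 (t : ℤ))
          (F a (fun i => -γ i) δ (fun k i => -α k i) β 1 (t : ℤ))).toAffine.Point =
        P (-(t : ℤ)) := by
      intro t
      rw [hneg, hneg]
    rw [sum_congr rfl (fun t _ => e t)] at h
    exact h
  have hsub : Icc (-(X : ℤ)) X ⊆ ((Icc 1 X).image (fun t : ℕ => (t : ℤ)) ∪
      (Icc 1 X).image (fun t : ℕ => -(t : ℤ))) ∪ {0} := by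
    intro t ht
    rw [mem_Icc] at ht
    rw [mem_union, mem_union, mem_image, mem_image, mem_singleton]
    rcases lt_trichotomy t 0 with h | h | h
    · left; right
      exact ⟨t.natAbs, mem_Icc.2 (by omega), by omega⟩
    · right; exact h
    · left; left
      exact ⟨t.natAbs, mem_Icc.2 (by omega), by omega⟩
  have hun : ∀ S T : Finset ℤ, ∑ t ∈ S ∪ T, P t ≤ ∑ t ∈ S, P t + ∑ t ∈ T, P t := by
    intro S T
    rw [← sum_union_inter]
    exact le_add_of_nonneg_right (sum_nonneg fun t _ => hP0 t)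
  have e3 : ∑ t ∈ (Icc 1 X).image (fun t : ℕ => (t : ℤ)), P t = ∑ t ∈ Icc 1 X, P (t : ℤ) :=
    sum_image (fun i _ j _ hij => by exact_mod_cast hij)
  have e4 : ∑ t ∈ (Icc 1 X).image (fun t : ℕ => -(t : ℤ)), P t = ∑ t ∈ Icc 1 X, P (-(t : ℤ)) :=
    sum_image (fun i _ j _ hij => by simpa using hij)
  show ∑ t ∈ Icc (-(X : ℤ)) X, P t ≤ (C1 + C2 + P 0) * X
  have h5 := (sum_le_sum_of_subset_of_nonneg hsub (fun t _ _ => hP0 t)).trans
    ((hun _ _).trans (add_le_add (hun _ _) le_rfl))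
  rw [e3, e4, sum_singleton] at h5
  have h6 : P 0 ≤ P 0 * X := le_mul_of_one_le_right (hP0 0) hXr
  linarith

end Pool.Agent.Results.MP_157626_nt.BoundedAverage
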