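import Mathlib
import Pool.Agent.W307.FK.Main
import Pool.Agent.W307.RS.MainD
import Pool.Agent.W307.RT.Tors

/-!
# Ranks and 2-Selmer groups of all the curves with full rational 2-torsion, by discriminant

All elliptic curves over `ℚ` with full rational 2-torsion, ordered by the absolute value of the
minimal discriminant: there are finitely many of discriminant at most `Z`, the order of the
2-Selmer group is at least `2 ^ rank`, and the average of its square is bounded by a constant. So
the proportion of the curves with rank at least `r` is at most `C / 4 ^ r`. The number of the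
curves tends to infinity with `Z`.
-/

namespace Pool.Agent.Results.MP_157626_nt.FullTwoTorsionMoments

open Finset Filter

/-- the curve `y² = x³ + A x + B` over `ℚ` -/
def E (A B : ℤ) : WeierstrassCurve ℚ := ⟨0, 0, 0, (A : ℚ), (B : ℚ)⟩

/-- the absolute value of the minimal discriminant of an elliptic curve `W` over `ℚ`: the smallest
absolute value of the discriminant of a Weierstrass equation `V` with integer coefficients which is
isomorphic to `W` over `ℚ` -/
noncomputable def minDisc (W : WeierstrassCurve ℚ) : ℕ :=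
  sInf {n : ℕ | ∃ (V : WeierstrassCurve ℤ) (C : WeierstrassCurve.VariableChange ℚ),
    C • W = V.map (Int.castRingHom ℚ) ∧ n = V.Δ.natAbs}

/-- The pairs `(A, B)` of integers such that `4 A³ + 27 B² ≠ 0`, there is no prime `p` with
`p⁴ ∣ A` and `p⁶ ∣ B`, the minimal discriminant of `y² = x³ + A x + B` is at most `Z`, and
`Z/2 x Z/2` embeds in the group of its rational points. (Every elliptic curve over `ℚ` is
isomorphic to `E A B` for exactly one pair with the first two properties. The curves have three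
integer roots.) -/
def Fam (Z : ℕ) : Set (ℤ × ℤ) :=
  {c : ℤ × ℤ | 4 * c.1 ^ 3 + 27 * c.2 ^ 2 ≠ 0 ∧
    (∀ p : ℕ, p.Prime → ¬ ((p : ℤ) ^ 4 ∣ c.1 ∧ (p : ℤ) ^ 6 ∣ c.2)) ∧
    (∃ f : ZMod 2 × ZMod 2 →+ (E c.1 c.2).toAffine.Point, Function.Injective f) ∧
    minDisc (E c.1 c.2) ≤ Z}

/-- The local condition at a completion `K` of `ℚ`: there is a point `(x, y)`, `y ≠ 0`, of
`y² = x³ + A x + B` over `K` such that `(x - e) * d e` is a square for all the integer roots `e` of
`x³ + A x + B`. (Every class of `E(K) / 2 E(K)` contains a point with `y ≠ 0`.) -/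
def Local (K : Type) [Field K] (A B : ℤ) (d : ℤ → ℤ) : Prop :=
  ∃ x y : K, y ≠ 0 ∧ y ^ 2 = x ^ 3 + A * x + B ∧
    ∀ e : ℤ, e ^ 3 + A * e + B = 0 → IsSquare ((x - e) * d e)

/-- The 2-Selmer group of `y² = x³ + A x + B`, a curve with three integer roots. As `E[2]` is the
group of the families of signs with product one indexed by the roots, an element of the 2-Selmer
group is a family of classes of nonzero rational numbers modulo squares indexed by the roots `e`,
given by squarefree integers `d e` (`d e = 1` if `e` is not a root), which over `ℝ` and over `ℚ_[p]`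
for all primes `p` is the family of the classes of `x - e` for a point of the curve. -/
def Sel2 (A B : ℤ) : Set (ℤ → ℤ) :=
  {d | (∀ e, Squarefree (d e)) ∧ (∀ e : ℤ, e ^ 3 + A * e + B ≠ 0 → d e = 1) ∧ Local ℝ A B d ∧
    ∀ (p : ℕ) [Fact p.Prime], Local ℚ_[p] A B d}

lemma Fam_eq (Z : ℕ) : Fam Z = Pool.Agent.W307.RS.DvS 2 Z := by
  ext c
  have h : Pool.Agent.W307.RT.HasT 2 (Pool.Agent.W307.RT.Sh c.1 c.2) ↔
      ∃ f : ZMod 2 × ZMod 2 →+ (E c.1 c.2).toAffine.Point, Function.Injective f :=
    Pool.Agent.W307.RT.tors_iff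
  unfold Fam Pool.Agent.W307.RS.DvS
  rw [Set.mem_setOf_eq, Set.mem_setOf_eq, h]
  exact Iff.rfl

/-- The number of these curves of minimal discriminant at most `Z` tends to infinity. -/
theorem card_tendsto : Tendsto (fun Z : ℕ => (Fam Z).ncard) atTop atTop := by
  obtain ⟨C, hC⟩ := Pool.Agent.W307.FK.find
  have h1 := Pool.Agent.W307.RT.tendsto_of_low Pool.Agent.W672.FK.lowf
  have h2 : Tendsto (fun Z : ℕ => (Pool.Agent.W307.RT.Cv 2 (Z / 32)).card) atTop atTop :=
    h1.comp (Nat.tendsto_div_const_atTop (by norm_num))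
  refine tendsto_atTop_mono (fun Z => ?_) h2
  rw [Fam_eq, ← Set.ncard_coe_finset]
  exact Set.ncard_le_ncard (Pool.Agent.W307.RS.Cv_sub Pool.Agent.W554.RS.mdl 2 (Z / 32) Z
    (Nat.mul_div_le Z 32)) (hC Z).1

/-- **Theorem.** There are finitely many elliptic curves over `ℚ` with full rational 2-torsion and
minimal discriminant at most `Z` in absolute value, their 2-Selmer groups are finite of order at
least `2 ^ rank`, and the average of the squares of these orders is bounded. -/
theorem result : ∃ C : ℝ, ∀ Z : ℕ, ∃ hfin : (Fam Z).Finite,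
    (∀ c ∈ Fam Z, (Sel2 c.1 c.2).Finite ∧
      2 ^ Module.finrank ℤ (E c.1 c.2).toAffine.Point ≤ (Sel2 c.1 c.2).ncard) ∧
    ∑ c ∈ hfin.toFinset, ((Sel2 c.1 c.2).ncard : ℝ) ^ 2 ≤ C * hfin.toFinset.card := by
  obtain ⟨C, hC⟩ := Pool.Agent.W307.FK.find
  obtain ⟨F, -, hF⟩ := Pool.Agent.W513.FK.parf
  refine ⟨C, fun Z => ?_⟩
  obtain ⟨h1, h2, h3⟩ := hC Z
  rw [← Fam_eq] at h1 h2 h3
  refine ⟨h1, fun c hc => ⟨h2 c hc, ?_⟩, h3 h1.toFinset h1.coe_toFinset⟩
  have hc' := hc
  rw [Fam_eq] at hc'
  obtain ⟨-, -, -, -, -, e1, e2, e3, he, -, -⟩ := hF c hc'.1 hc'.2.2.1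
  exact Pool.Agent.W402.FK.rks c.1 c.2 e1 e2 e3 hc'.1 he (h2 c hc)

end Pool.Agent.Results.MP_157626_nt.FullTwoTorsionMoments
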